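import Pool.Agent.H927.MG.SGoals

/-! M4P1 arcs (helper353): square and cube roots in `ℂ⟦X⟧`, explicit parameters. -/

set_option autoImplicit false

open AlgebraicGeometry CategoryTheory Limits

namespace Pool.Agent.H353.MG927

open Pool.Agent.H927.MG
open PowerSeries (constantCoeff)

theorem binom_pow (r : ℚ) (k : ℕ) :
    (PowerSeries.binomialSeries ℂ r) ^ k = PowerSeries.binomialSeries ℂ ((k : ℚ) * r) := by
  induction k with
  | zero =>
    rw [pow_zero, Nat.cast_zero, zero_mul, PowerSeries.binomialSeries_zero]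
  | succ k ih =>
    rw [pow_succ, ih, ← PowerSeries.binomialSeries_add]
    congr 1
    push_cast
    ring

/-- roots of power series with nonzero constant coefficient -/
theorem root (n : ℕ) (hn : 0 < n) (f : PowerSeries ℂ) (hf : constantCoeff f ≠ 0) :
    ∃ g : PowerSeries ℂ, g ^ n = f := by
  obtain ⟨r, hr⟩ := IsAlgClosed.exists_pow_nat_eq (constantCoeff f) hn
  set h : PowerSeries ℂ := PowerSeries.C (constantCoeff f)⁻¹ * f - 1 with hh
  have h0 : constantCoeff h = 0 := by
    rw [hh, map_sub, map_mul, PowerSeries.constantCoeff_C, inv_mul_cancel₀ hf, map_one, sub_self]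
  have hs : PowerSeries.HasSubst h := PowerSeries.HasSubst.of_constantCoeff_zero h0
  set b := PowerSeries.binomialSeries ℂ (1 / (n : ℚ)) with hb
  have hbn : b ^ n = 1 + PowerSeries.X := by
    have hn' : (n : ℚ) ≠ 0 := by exact_mod_cast hn.ne'
    rw [hb, binom_pow, mul_one_div_cancel hn']
    have := PowerSeries.binomialSeries_nat (R := ℚ) (A := ℂ) 1
    rw [Nat.cast_one, pow_one] at this
    exact this
  refine ⟨PowerSeries.C r * b.subst h, ?_⟩
  have h1 : (b.subst h : PowerSeries ℂ) ^ n = 1 + h := by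
    rw [← PowerSeries.subst_pow hs, hbn, PowerSeries.subst_add hs, PowerSeries.subst_X hs]
    congr 1
    have := map_one (PowerSeries.substAlgHom (R := ℂ) hs)
    rwa [PowerSeries.coe_substAlgHom hs] at this
  rw [mul_pow, h1, ← map_pow, hr, hh]
  have h2 : PowerSeries.C (constantCoeff f) * PowerSeries.C (constantCoeff f)⁻¹ = 1 := by
    rw [← map_mul, mul_inv_cancel₀ hf, map_one]
  linear_combination f * h2

/-- roots of polynomials in `c + X ^ 6` -/
theorem root6 (n m : ℕ) (hnm : m * n = 6) (p : Polynomial ℂ) (c : ℂ) :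
    ∃ g : PowerSeries ℂ, g ^ n = Polynomial.aeval (PowerSeries.C c + PowerSeries.X ^ 6) p := by
  have hn : 0 < n := by
    rcases Nat.eq_zero_or_pos n with h | h
    · subst h; omega
    · exact h
  set r := p.comp (Polynomial.X + Polynomial.C c) with hr
  have hq : Polynomial.aeval (PowerSeries.C c + PowerSeries.X ^ 6) p =
      Polynomial.aeval (PowerSeries.X ^ 6 : PowerSeries ℂ) r := by
    rw [hr, Polynomial.aeval_comp]
    congr 1
    simp only [map_add, Polynomial.aeval_X, Polynomial.aeval_C]
    rw [add_comm]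
    rfl
  rw [hq]
  by_cases h0 : r = 0
  · exact ⟨0, by rw [h0, map_zero, zero_pow hn.ne']⟩
  obtain ⟨r', hr', hnd⟩ := Polynomial.exists_eq_pow_rootMultiplicity_mul_and_not_dvd r h0 0
  rw [map_zero, sub_zero] at hr' hnd
  set k := r.rootMultiplicity 0
  have hc : constantCoeff (Polynomial.aeval (PowerSeries.X ^ 6 : PowerSeries ℂ) r') ≠ 0 := by
    intro h
    apply hnd
    rw [Polynomial.X_dvd_iff]
    rw [Polynomial.aeval_def, Polynomial.hom_eval₂] at h
    have h1 : constantCoeff (PowerSeries.X ^ 6 : PowerSeries ℂ) = 0 := by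
      rw [map_pow, PowerSeries.constantCoeff_X, zero_pow (by norm_num)]
    rw [h1, Polynomial.eval₂_at_zero] at h
    simpa using h
  obtain ⟨g, hg⟩ := root n hn _ hc
  refine ⟨PowerSeries.X ^ (m * k) * g, ?_⟩
  rw [mul_pow, hg, hr', map_mul, map_pow, Polynomial.aeval_X, ← pow_mul, ← pow_mul]
  congr 2
  rw [← hnm]
  ring

theorem inv_of (f : PowerSeries ℂ) (hf : constantCoeff f ≠ 0) : ∃ w, f * w = 1 :=
  ⟨f⁻¹, PowerSeries.mul_inv_cancel f hf⟩

theorem arcs : S_arcs := by
  refine ⟨?_, ?_⟩
  · intro s hs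
    set σ : PowerSeries ℂ := PowerSeries.C s + PowerSeries.X ^ 6 with hσ
    have hσ0 : constantCoeff σ = s := by simp [hσ]
    set U := hU σ 1 with hUd
    have hU0 : constantCoeff U = s ^ 2 + 1 := by simp [hUd, hU, hσ0]
    -- cube root
    obtain ⟨lam, hlam⟩ := root6 3 2 (by norm_num) (Polynomial.X ^ 2 + 1) s
    have hlam2 : lam ^ 3 = U := by
      rw [hlam]
      simp [hUd, hU, ← hσ]
    -- square root
    obtain ⟨k, hk⟩ := root6 2 3 (by norm_num) (-(((Polynomial.X ^ 2 + 1) ^ 2 + 8) *
      ((Polynomial.X ^ 2 + 1) ^ 2 + 88 * (Polynomial.X ^ 2 + 1) - 8))) s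
    have hk' : k ^ 2 = -((U ^ 2 + 8) * (U ^ 2 + 88 * U - 8)) := by
      rw [hk]
      have h8 : (Polynomial.aeval σ) (8 : Polynomial ℂ) = 8 := map_ofNat _ 8
      have h88 : (Polynomial.aeval σ) (88 : Polynomial ℂ) = 88 := map_ofNat _ 88
      simp only [← hσ, map_neg, map_mul, map_add, map_sub, map_pow, Polynomial.aeval_X, map_one,
        h8, h88]
      simp [hUd, hU]
    have c8 : constantCoeff (8 : PowerSeries ℂ) = 8 := map_ofNat _ 8
    have c20 : constantCoeff (20 : PowerSeries ℂ) = 20 := map_ofNat _ 20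
    have c88 : constantCoeff (88 : PowerSeries ℂ) = 88 := map_ofNat _ 88
    obtain ⟨w, hw⟩ := inv_of (U ^ 2 + 8) (by
      rw [map_add, map_pow, hU0, c8]
      exact hs)
    -- the choice of the sign
    have hch : ∃ k' : PowerSeries ℂ, k' ^ 2 = -((U ^ 2 + 8) * (U ^ 2 + 88 * U - 8)) ∧
        constantCoeff (8 + 20 * U - U ^ 2 - k') ≠ 0 := by
      by_cases h1 : constantCoeff (8 + 20 * U - U ^ 2 - k) = 0
      · refine ⟨-k, by rw [neg_sq, hk'], ?_⟩
        intro h2
        have h3 := congrArg constantCoeff hk'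
        simp only [map_sub, map_add, map_mul, map_pow, map_neg, c8, c20, c88, hU0] at h1 h2 h3
        set u := s ^ 2 + 1
        set κ := constantCoeff k
        have e1 : 8 + 20 * u - u ^ 2 = 0 := by linear_combination (h1 + h2) / 2
        have e2 : κ = 0 := by linear_combination (h2 - h1) / 2
        have e3 : 2 * u * (u + 8) ^ 3 = 0 := by
          rw [e2] at h3
          linear_combination (8 + 20 * u - u ^ 2) * e1 + h3
        rcases mul_eq_zero.1 e3 with h4 | h4
        · have h5 : u = 0 := by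
            rcases mul_eq_zero.1 h4 with h6 | h6
            · norm_num at h6
            · exact h6
          rw [h5] at e1
          norm_num at e1
        · have h5 : u = -8 := by
            have := pow_eq_zero_iff (n := 3) (by norm_num) |>.1 h4
            linear_combination this
          rw [h5] at e1
          norm_num at e1
      · exact ⟨k, hk', h1⟩
    obtain ⟨k', hk1, hk2⟩ := hch
    obtain ⟨e, he⟩ := inv_of _ hk2
    refine ⟨Par.mk σ 1 lam k' w e hlam2 ?_ ?_ ?_, rfl, rfl⟩
    · rw [hk1, ← hUd]; ring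
    · rw [← hUd]; linear_combination hw
    · unfold hn
      rw [← hUd]
      linear_combination he
  · set z : PowerSeries ℂ := PowerSeries.X with hz
    have hz0 : constantCoeff z = 0 := PowerSeries.constantCoeff_X
    set U := hU (1 : PowerSeries ℂ) z with hUd
    have hU0 : constantCoeff U = 1 := by simp [hUd, hU, hz0]
    have c8 : constantCoeff (8 : PowerSeries ℂ) = 8 := map_ofNat _ 8
    have c20 : constantCoeff (20 : PowerSeries ℂ) = 20 := map_ofNat _ 20
    have c88 : constantCoeff (88 : PowerSeries ℂ) = 88 := map_ofNat _ 88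
    obtain ⟨lam, hlam⟩ := root 3 (by norm_num) U (by rw [hU0]; exact one_ne_zero)
    obtain ⟨k, hk⟩ := root 2 (by norm_num)
      (-(U ^ 2 + 8 * z ^ 12) * (U ^ 2 + 88 * U * z ^ 6 - 8 * z ^ 12)) (by
        simp only [map_sub, map_add, map_mul, map_pow, map_neg, c8, c88, hU0, hz0]
        norm_num)
    obtain ⟨w, hw⟩ := inv_of (U ^ 2 + 8 * z ^ 12) (by
      simp only [map_add, map_mul, map_pow, c8, hU0, hz0]
      norm_num)
    obtain ⟨e, he⟩ := inv_of (hn 1 z k) (by
      intro h
      have h3 := congrArg constantCoeff hk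
      unfold hn at h
      rw [← hUd] at h
      simp only [map_sub, map_add, map_mul, map_pow, map_neg, c8, c20, c88, hU0, hz0] at h h3
      have h4 : constantCoeff k = -1 := by linear_combination -h
      rw [h4] at h3
      norm_num at h3)
    exact ⟨Par.mk 1 z lam k w e hlam hk hw he, rfl, rfl⟩

end Pool.Agent.H353.MG927
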