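import Pool.Agent.H927.MG.SGoals

set_option autoImplicit false

open AlgebraicGeometry CategoryTheory Limits Polynomial
open scoped LaurentPolynomial
open LaurentPolynomial (T invert T_add T_zero involutive_invert invert_T invert_C)

namespace Pool.Agent.H353.MG927

open Pool.Agent.H927.MG

/-- a polynomial in `x` that is a polynomial in `1/x` without constant term is zero -/
lemma laurent_zero {K : Type} [Field K] (g g2 : K[X]) (n : ℕ)
    (h : toLaurent g * T ((n : ℤ) + 1) = -(inv K (toLaurent g2))) : g = 0 := by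
  by_contra hg
  have h1 : g * X ^ (n + 1 + g2.natDegree) = -g2.reverse := by
    apply toLaurent_injective
    rw [map_mul, map_neg, LaurentPolynomial.toLaurent_reverse, Polynomial.toLaurent_X_pow]
    push_cast
    rw [T_add, ← mul_assoc, h, inv_apply, neg_mul]
  have h2 := congrArg natDegree h1
  rw [natDegree_mul_X_pow _ hg, natDegree_neg] at h2
  have h3 := Polynomial.reverse_natDegree_le g2
  omega

lemma of_mul_eq_smul {A : Type} [CommRing A] {d : Dat A} (r : A) (x : BB d) :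
    BB.of d r * x = r • x := by
  ext <;> simp

/-- `v` is not a zero divisor -/
lemma v_cancel {A : Type} [CommRing A] [IsDomain A] {d : Dat A} (hf : d.f ≠ 0) (x : BB d)
    (h : BB.v d * x = 0) : x = 0 := by
  have h1 : BB.of d d.f * x = 0 := by
    rw [← BB.v_mul_v, mul_assoc, h, mul_zero]
  rw [of_mul_eq_smul] at h1
  have e1 := congrArg BB.a h1
  have e2 := congrArg BB.b h1
  have e3 := congrArg BB.p h1
  have e4 := congrArg BB.q h1
  simp only [BB.smul_a, BB.smul_b, BB.smul_p, BB.smul_q, BB.zero_a, BB.zero_b, BB.zero_p,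
    BB.zero_q, mul_eq_zero, hf, false_or] at e1 e2 e3 e4
  ext
  · exact e1
  · exact e2
  · exact e3
  · exact e4

lemma vmul_D {K : Type} [Field K] [CharZero K] {d : Dat K[X]} (ε : K)
    (hf : d.f = C ε * (1 - X ^ 6))
    (D0 : Derivation ℤ K K) (hD0 : D0 ε = 0)
    (D : Derivation ℤ (BB d) (BB d)) (hD : ∀ r, D (sc _ r) = sc _ (D0 r)) :
    BB.v d * D (BB.v d) = BB.of d (C (-3 * ε) * X ^ 5) * D (xx d) := by
  have h1 : BB.of d d.f = sc d ε * (1 - xx d ^ 6) := by
    rw [hf]; simp [sc, xx]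
  have h2 : D (BB.v d * BB.v d) = D (sc d ε * (1 - xx d ^ 6)) := by
    rw [BB.v_mul_v, h1]
  rw [D.leibniz, D.leibniz, hD, hD0, map_zero, smul_zero, add_zero, map_sub, D.map_one_eq_zero,
    D.leibniz_pow] at h2
  simp only [smul_eq_mul, zero_sub, nsmul_eq_mul] at h2
  have h3 : sc d (1/2) * (BB.v d * D (BB.v d) + BB.v d * D (BB.v d)) = BB.v d * D (BB.v d) := by
    have : sc d (1/2) * 2 = 1 := by
      have h : (2 : BB d) = sc d 2 := (map_ofNat (sc d) 2).symm
      rw [h, ← map_mul]; norm_num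
    linear_combination (BB.v d * D (BB.v d)) * this
  rw [← h3, h2]
  have h4 : BB.of d (C (-3 * ε) * X ^ 5) = sc d (-3 * ε) * xx d ^ 5 := by
    simp [sc, xx]
  rw [h4]
  have h5 : sc d (-3 * ε) = - (sc d (1/2) * sc d ε * sc d 6) := by
    rw [← map_mul, ← map_mul, ← map_neg]; congr 1; ring
  have h6 : sc d 6 = ((6 : ℕ) : BB d) := by
    rw [map_ofNat]; norm_num
  rw [h5, h6]
  norm_num
  ring

lemma key {K : Type} [Field K] [CharZero K] {d : Dat K[X]} (ε : K) (hε : ε ≠ 0)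
    (hf : d.f = C ε * (1 - X ^ 6))
    (D0 : Derivation ℤ K K) (hD0 : D0 ε = 0)
    (D : Derivation ℤ (BB d) (BB d)) (hD : ∀ r, D (sc _ r) = sc _ (D0 r)) :
    ∃ γ : BB d, D (xx d) = BB.v d * γ := by
  have hv := vmul_D ε hf D0 hD0 D hD
  have hf0 : d.f ≠ 0 := by
    rw [hf]
    intro h
    have := congrArg (eval 0) h
    simp at this
    exact hε this
  have h1 : d.f • D (BB.v d) = (C (-3 * ε) * X ^ 5) • (BB.v d * D (xx d)) := by
    rw [← of_mul_eq_smul, ← of_mul_eq_smul, ← BB.v_mul_v, mul_assoc, hv]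
    ring
  have hco : IsCoprime d.f (C (-3 * ε) * X ^ 5) := by
    refine ⟨C ε⁻¹, C (-(1/3) * ε⁻¹) * X, ?_⟩
    rw [hf]
    have e1 : C ε⁻¹ * C ε = (1 : K[X]) := by
      rw [← C_mul, inv_mul_cancel₀ hε, C_1]
    have e2 : C (-(1/3) * ε⁻¹) * C (-3 * ε) = (1 : K[X]) := by
      rw [← C_mul, ← C_1]; congr 1; field_simp
    linear_combination (1 - X ^ 6) * e1 + X ^ 6 * e2
  have hdvd : ∀ b c : K[X], d.f * b = (C (-3 * ε) * X ^ 5) * c → ∃ g, c = d.f * g := by
    intro b c h
    exact hco.dvd_of_dvd_mul_left ⟨b, h.symm⟩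
  obtain ⟨ga, ha⟩ := hdvd _ _ (congrArg BB.a h1)
  obtain ⟨gb, hb⟩ := hdvd _ _ (congrArg BB.b h1)
  obtain ⟨gp, hp⟩ := hdvd _ _ (congrArg BB.p h1)
  obtain ⟨gq, hq⟩ := hdvd _ _ (congrArg BB.q h1)
  refine ⟨⟨ga, gb, gp, gq⟩, ?_⟩
  have h2 : BB.v d * D (xx d) = d.f • (⟨ga, gb, gp, gq⟩ : BB d) := by
    apply BB.ext
    · exact ha
    · exact hb
    · exact hp
    · exact hq
  rw [← sub_eq_zero]
  apply v_cancel hf0
  rw [mul_sub, h2, ← of_mul_eq_smul, ← BB.v_mul_v]
  ring

/-- evaluation at a zero of `l` -/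
lemma main_l {K : Type} [Field K] (d : Dat K[X]) (D : Derivation ℤ (BB d) (BB d))
    (hv : D (BB.v d) = 0) (ξ : K) (hl : d.l.eval ξ = 0) (δ : K[X])
    (hδ : D (BB.of d d.l) = BB.of d δ) : 2 * d.V.eval ξ * δ.eval ξ = 0 := by
  have h := congrArg D (BB.W0_mul_W0 (d := d))
  rw [D.leibniz, D.leibniz, map_add, hv, hδ] at h
  simp only [smul_eq_mul, add_zero] at h
  let Φ : BB d →+* K := BB.lift (evalRingHom ξ) (d.V.eval ξ) 0 0
    (by simp [Dat.f, hl]; ring) (by simp [hl]) (by simp) (by simp [hl]) (by simp) (by simp)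
  have ho : ∀ p, Φ (BB.of d p) = p.eval ξ := by
    intro p
    simp [Φ, BB.lift_apply]
  have hvΦ : Φ (BB.v d) = d.V.eval ξ := by
    simp [Φ, BB.lift_apply, BB.v]
  have hW : Φ (BB.W0 d) = 0 := by
    simp [Φ, BB.lift_apply, BB.W0]
  have h' := congrArg Φ h
  simp only [map_add, map_mul, ho, hvΦ, hW, hl, zero_mul, zero_add] at h'
  linear_combination -h'

/-- evaluation at a zero of `m` -/
lemma main_m {K : Type} [Field K] (d : Dat K[X]) (D : Derivation ℤ (BB d) (BB d))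
    (hv : D (BB.v d) = 0) (ξ : K) (hl : d.m.eval ξ = 0) (δ : K[X])
    (hδ : D (BB.of d d.m) = BB.of d δ) : 2 * d.V.eval ξ * δ.eval ξ = 0 := by
  have h := congrArg D (BB.W1_mul_W1 (d := d))
  rw [D.leibniz, D.leibniz, map_sub, hv, hδ] at h
  simp only [smul_eq_mul, sub_zero] at h
  let Φ : BB d →+* K := BB.lift (evalRingHom ξ) (-d.V.eval ξ) 0 0
    (by simp [Dat.f, hl]; ring) (by simp) (by simp [hl]) (by simp [hl]) (by simp) (by simp)
  have ho : ∀ p, Φ (BB.of d p) = p.eval ξ := by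
    intro p
    simp [Φ, BB.lift_apply]
  have hvΦ : Φ (BB.v d) = -d.V.eval ξ := by
    simp [Φ, BB.lift_apply, BB.v]
  have hW : Φ (BB.W1 d) = 0 := by
    simp [Φ, BB.lift_apply, BB.W1]
  have h' := congrArg Φ h
  simp only [map_add, map_sub, map_mul, ho, hvΦ, hW, hl, zero_mul, zero_add] at h'
  linear_combination -h'

/-- a sixth root of unity is constant -/
lemma root_const {K : Type} [Field K] [CharZero K] (D : Derivation ℤ K K) (ξ : K)
    (h : ξ ^ 6 = 1) : D ξ = 0 := by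
  have h1 := congrArg D h
  rw [D.leibniz_pow, D.map_one_eq_zero] at h1
  simp only [smul_eq_mul, nsmul_eq_mul] at h1
  have h0 : ξ ≠ 0 := by
    rintro rfl
    norm_num at h
  have h2 : ((6 : ℕ) : K) ≠ 0 := by exact_mod_cast (by norm_num : (6 : ℕ) ≠ 0)
  rcases mul_eq_zero.1 h1 with h3 | h3
  · exact absurd h3 h2
  · rcases mul_eq_zero.1 h3 with h4 | h4
    · exact absurd h4 (pow_ne_zero _ h0)
    · exact h4

lemma D1_zero {K : Type} [Field K] [CharZero K] (D : Derivation ℤ K K) (G : GD K)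
    (hc : G.g.c = T (-3)) (hx : G.g.x = T (-2)) (hy : G.g.y = 0) (hz : G.g.z = 0)
    (ht : G.g.t = T (-2)) (hf1 : G.d1.f = 1 - X ^ 6) (E : DD D G) :
    E.D1 (xx _) = 0 ∧ E.D1 (BB.v _) = 0 := by
  have hf2 : G.d2.f = X ^ 6 - 1 := by
    apply Pool.Agent.H927.MG.toLaurent_inj
    apply (inv_bijective (R := K)).1
    have h := G.g.e0
    rw [Dat.map_f, hf1, Dat.map_f] at h
    rw [← h, hc]
    simp only [map_sub, map_one, map_pow, toLaurent_X, LaurentPolynomial.T_pow, inv_apply,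
      invert_T]
    rw [mul_sub, mul_one, ← T_add, ← T_add]
    norm_num
  have hf1' : G.d1.f = C 1 * (1 - X ^ 6) := by rw [hf1, C_1, one_mul]
  have hf2' : G.d2.f = C (-1) * (1 - X ^ 6) := by rw [hf2]; simp
  have hf10 : G.d1.f ≠ 0 := by
    rw [hf1]
    intro h
    have := congrArg (eval 0) h
    simp at this
  obtain ⟨γ, hγ⟩ := key 1 one_ne_zero hf1' D D.map_one_eq_zero E.D1 E.h1
  obtain ⟨γ2, hγ2⟩ := key (-1) (by norm_num) hf2' D (by rw [map_neg, D.map_one_eq_zero, neg_zero])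
    E.D2 E.h2
  have hL := congrArg E.DL (inc_mul_inc2 G)
  rw [E.DL.leibniz, E.DL.map_one_eq_zero, E.c1, E.c2, hγ, hγ2] at hL
  simp only [smul_eq_mul, map_mul] at hL
  have hv1 : inc G.d1 (BB.v _) = BB.v _ := by
    ext <;> simp [inc, BB.v]
  have hv2 : inc2 G (BB.v _) = BB.of _ (T (-3)) * BB.v _ := by
    rw [inc2, RingHom.comp_apply, Mor.hom_apply]
    ext <;> simp [inc, BB.v, hc]
  rw [hv1, hv2, inc_xx, inc2_xx] at hL
  have hfL : G.d1.L.f ≠ 0 := by
    rw [Dat.map_f]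
    intro h
    exact hf10 (toLaurent_injective (by rw [h, map_zero]))
  have hL2 : BB.v G.d1.L * (BB.of _ (T 1 * T (-3)) * inc2 G γ2 +
      BB.of _ (T (-1)) * inc G.d1 γ) = 0 := by
    rw [← hL, map_mul]; ring
  have hL3 := v_cancel hfL _ hL2
  have hL4 : inc G.d1 γ * BB.of _ (T 1) = - inc2 G γ2 := by
    have e1 : BB.of G.d1.L (T 2) * BB.of G.d1.L (T 1 * T (-3)) = 1 := by
      rw [← map_mul, ← T_add, ← T_add]; norm_num
    have e2 : BB.of G.d1.L (T 2) * BB.of G.d1.L (T (-1)) = BB.of G.d1.L (T 1) := by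
      rw [← map_mul, ← T_add]; norm_num
    linear_combination (BB.of G.d1.L (T 2)) * hL3 - inc2 G γ2 * e1 - inc G.d1 γ * e2
  have hγ0 : γ = 0 := by
    rw [inc2, RingHom.comp_apply, Mor.hom_apply, hc, hx, hy, hz, ht] at hL4
    have ea := congrArg BB.a hL4
    have eb := congrArg BB.b hL4
    have ep := congrArg BB.p hL4
    have eq := congrArg BB.q hL4
    simp only [inc, BB.mul_a, BB.mul_b, BB.mul_p, BB.mul_q, BB.map_a', BB.map_b', BB.map_p',
      BB.map_q', BB.of_a, BB.of_b, BB.of_p, BB.of_q, BB.neg_a, BB.neg_b, BB.neg_p, BB.neg_q,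
      mul_zero, zero_mul, add_zero, zero_add, sub_zero] at ea eb ep eq
    have e3 : (T 3 : K[T;T⁻¹]) * T (-3) = 1 := by rw [← T_add]; norm_num
    have e2 : (T 2 : K[T;T⁻¹]) * T (-2) = 1 := by rw [← T_add]; norm_num
    ext1
    · apply laurent_zero _ γ2.a 0
      simpa using ea
    · apply laurent_zero _ γ2.b 3
      have e4 : (T (((3 : ℕ) : ℤ) + 1) : K[T;T⁻¹]) = T 1 * T 3 := by rw [← T_add]; norm_num
      rw [e4]
      linear_combination T 3 * eb - inv K (toLaurent γ2.b) * e3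
    · apply laurent_zero _ γ2.p 2
      have e4 : (T (((2 : ℕ) : ℤ) + 1) : K[T;T⁻¹]) = T 1 * T 2 := by rw [← T_add]; norm_num
      rw [e4]
      linear_combination T 2 * ep - inv K (toLaurent γ2.p) * e2
    · apply laurent_zero _ γ2.q 2
      have e4 : (T (((2 : ℕ) : ℤ) + 1) : K[T;T⁻¹]) = T 1 * T 2 := by rw [← T_add]; norm_num
      rw [e4]
      linear_combination T 2 * eq - inv K (toLaurent γ2.q) * e2
  have hx0 : E.D1 (xx _) = 0 := by rw [hγ, hγ0, mul_zero]
  refine ⟨hx0, ?_⟩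
  apply v_cancel hf10
  rw [vmul_D 1 hf1' D D.map_one_eq_zero E.D1 E.h1, hx0, mul_zero]

/-- DA -/
theorem deriv : S_deriv := by
  intro K _ _ D l0 m0 m1 V0 V1 V2 V3 T0 T1 T2 hm1 hf ⟨E⟩
  set G := hgd l0 1 m0 m1 V0 V1 V2 V3 T0 T1 T2 with hG
  obtain ⟨hx0, hv0⟩ := D1_zero D G rfl rfl rfl rfl rfl hf E
  have hl : G.d1.l = C l0 + C 1 * X := rfl
  have hm : G.d1.m = C m0 + C m1 * X := rfl
  constructor
  · have hδ : E.D1 (BB.of _ G.d1.l) = BB.of _ (C (D l0)) := by
      have : BB.of G.d1 G.d1.l = sc G.d1 l0 + sc G.d1 1 * xx G.d1 := by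
        rw [hl]; simp [sc, xx]
      rw [this, map_add, E.D1.leibniz, hx0, E.h1, E.h1, D.map_one_eq_zero]
      simp [sc]
    have hl0 : G.d1.l.eval (-l0) = 0 := by rw [hl]; simp
    have h := main_l G.d1 E.D1 hv0 (-l0) hl0 _ hδ
    rw [eval_C] at h
    rcases mul_eq_zero.1 h with h1 | h1
    · rcases mul_eq_zero.1 h1 with h2 | h2
      · norm_num at h2
      · have h3 : G.d1.f.eval (-l0) = 0 := by
          rw [Dat.f]; simp [hl0, h2]
        rw [hf] at h3
        have h4 : (-l0) ^ 6 = 1 := by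
          simp only [eval_sub, eval_one, eval_pow, eval_X] at h3
          linear_combination -h3
        have h5 := root_const D _ h4
        rw [map_neg] at h5
        linear_combination -h5
    · exact h1
  · have hδ : E.D1 (BB.of _ G.d1.m) = BB.of _ (C (D m0) + C (D m1) * X) := by
      have : BB.of G.d1 G.d1.m = sc G.d1 m0 + sc G.d1 m1 * xx G.d1 := by
        rw [hm]; simp [sc, xx]
      rw [this, map_add, E.D1.leibniz, hx0, E.h1, E.h1]
      simp only [sc, xx, smul_eq_mul, mul_zero, zero_add, map_add, map_mul, RingHom.comp_apply]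
      ring
    have hm0 : G.d1.m.eval (-(m0 / m1)) = 0 := by
      rw [hm]; simp; field_simp; ring
    have h := main_m G.d1 E.D1 hv0 (-(m0 / m1)) hm0 _ hδ
    simp only [eval_add, eval_C, eval_mul, eval_X] at h
    rcases mul_eq_zero.1 h with h1 | h1
    · rcases mul_eq_zero.1 h1 with h2 | h2
      · norm_num at h2
      · have h3 : G.d1.f.eval (-(m0 / m1)) = 0 := by
          rw [Dat.f]; simp [hm0, h2]
        rw [hf] at h3
        have h4 : (-(m0 / m1)) ^ 6 = 1 := by
          simp only [eval_sub, eval_one, eval_pow, eval_X] at h3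
          linear_combination -h3
        have h5 := root_const D _ h4
        rw [map_neg] at h5
        linear_combination -h5
    · have h2 : D m0 = D (m0 / m1 * m1) := by rw [div_mul_cancel₀ _ hm1]
      rw [D.leibniz] at h2
      simp only [smul_eq_mul] at h2
      have h3 : m1 * D (m0 / m1) = 0 := by
        linear_combination h1 - h2
      exact (mul_eq_zero.1 h3).resolve_left hm1

end Pool.Agent.H353.MG927
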